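import Pool.Agent.helper5.BEY.SpecA

/-!
# Row bey:AMP: the amplitudes
-/

set_option autoImplicit false

open Complex MeasureTheory

namespace Pool.Agent.BEY

theorem AMP_zero {a a1 : ℝ → ℝ} {s : Set ℝ} (hs : IsClosed s) (ha : ∀ y, HasDerivAt a (a1 y) y)
    (hz : ∀ y, y ∉ s → a y = 0) : ∀ y, y ∉ s → a1 y = 0 := by
  intro y hy
  have h1 : a =ᶠ[nhds y] fun _ => 0 := by
    filter_upwards [hs.isOpen_compl.mem_nhds hy] with x hx using hz x hx
  have h2 : HasDerivAt a 0 y := (hasDerivAt_const y (0 : ℝ)).congr_of_eventuallyEq h1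
  exact (ha y).unique h2

theorem AMP_mul (Q K K1 K2 : ℝ) (a a1 a2 g g1 g2 : ℝ → ℝ) (hQ : 1 ≤ Q) (hK1 : 0 ≤ K1) (hK2 : 1 ≤ K2)
    (hK : 0 < K) (hKK : 4 * K1 * K2 ≤ K) (ha : ∀ y, HasDerivAt a (a1 y) y)
    (ha1 : ∀ y, HasDerivAt a1 (a2 y) y) (hac : Continuous a2)
    (hz : ∀ y, y ∉ Set.Icc Q (4 * Q) → a y = 0)
    (hb : ∀ y ∈ Set.Icc Q (4 * Q), |a y| ≤ K1 ∧ |a1 y| ≤ K1 / Q ∧ |a2 y| ≤ K1 / Q ^ 2)
    (hg : ∀ y, 0 < y → HasDerivAt g (g1 y) y) (hg1 : ∀ y, 0 < y → HasDerivAt g1 (g2 y) y)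
    (hgc : ∀ y, 0 < y → ContinuousAt g2 y)
    (hgb : ∀ y ∈ Set.Icc Q (4 * Q), |g y| ≤ 1 ∧ |g1 y| ≤ K2 / Q ∧ |g2 y| ≤ K2 / Q ^ 2) :
    Am2 Q (fun y => a y * g y / K) := by
  have hQ0 : 0 < Q := by linarith
  have z1 := AMP_zero isClosed_Icc ha hz
  have z2 := AMP_zero isClosed_Icc ha1 z1
  have hlt : ∀ y : ℝ, y < Q → y ∉ Set.Icc Q (4 * Q) := fun y hy h => absurd h.1 (not_le.2 hy)
  obtain ⟨F, hF⟩ : ∃ F : ℝ → ℝ, F = fun y => a y * g y / K := ⟨_, rfl⟩
  obtain ⟨F1, hF1⟩ : ∃ F : ℝ → ℝ, F = fun y => (a1 y * g y + a y * g1 y) / K := ⟨_, rfl⟩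
  obtain ⟨F2, hF2⟩ : ∃ F : ℝ → ℝ, F = fun y => (a2 y * g y + a1 y * g1 y + (a1 y * g1 y + a y * g2 y)) / K :=
    ⟨_, rfl⟩
  rw [← hF]
  have d1 : ∀ y, HasDerivAt F (F1 y) y := by
    intro y
    by_cases hy : 0 < y
    · rw [hF, hF1]
      exact ((ha y).mul (hg y hy)).div_const K
    · have h0 : y < Q := by linarith
      have e : F1 y = 0 := by
        rw [hF1]
        simp only
        rw [z1 y (hlt y h0), hz y (hlt y h0)]
        simp
      rw [e]
      refine (hasDerivAt_const y (0 : ℝ)).congr_of_eventuallyEq ?_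
      filter_upwards [Iio_mem_nhds h0] with x hx
      rw [hF]
      simp only
      rw [hz x (hlt x hx)]
      simp
  have d2 : ∀ y, HasDerivAt F1 (F2 y) y := by
    intro y
    by_cases hy : 0 < y
    · rw [hF1, hF2]
      exact (((ha1 y).mul (hg y hy)).add ((ha y).mul (hg1 y hy))).div_const K
    · have h0 : y < Q := by linarith
      have e : F2 y = 0 := by
        rw [hF2]
        simp only
        rw [z2 y (hlt y h0), z1 y (hlt y h0), hz y (hlt y h0)]
        simp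
      rw [e]
      refine (hasDerivAt_const y (0 : ℝ)).congr_of_eventuallyEq ?_
      filter_upwards [Iio_mem_nhds h0] with x hx
      rw [hF1]
      simp only
      rw [z1 x (hlt x hx), hz x (hlt x hx)]
      simp
  have c2 : Continuous F2 := by
    rw [continuous_iff_continuousAt]
    intro y
    by_cases hy : 0 < y
    · rw [hF2]
      have c0 : ContinuousAt a y := (ha y).continuousAt
      have c1 : ContinuousAt a1 y := (ha1 y).continuousAt
      have c3 : ContinuousAt g y := (hg y hy).continuousAt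
      have c4 : ContinuousAt g1 y := (hg1 y hy).continuousAt
      exact (((hac.continuousAt.mul c3).add (c1.mul c4)).add ((c1.mul c4).add (c0.mul (hgc y hy)))).div_const K
    · have h0 : y < Q := by linarith
      have e : F2 =ᶠ[nhds y] fun _ => 0 := by
        filter_upwards [Iio_mem_nhds h0] with x hx
        rw [hF2]
        simp only
        rw [z2 x (hlt x hx), z1 x (hlt x hx), hz x (hlt x hx)]
        simp
      exact (continuousAt_const (y := (0 : ℝ))).congr e.symm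
  have e1 : deriv F = F1 := funext fun y => (d1 y).deriv
  have e2 : deriv F1 = F2 := funext fun y => (d2 y).deriv
  have hbd : ∀ y, |F y| ≤ 1 ∧ |F1 y| ≤ 1 / Q ∧ |F2 y| ≤ 1 / Q ^ 2 := by
    intro y
    by_cases hy : y ∈ Set.Icc Q (4 * Q)
    · obtain ⟨p0, p1, p2⟩ := hb y hy
      obtain ⟨q0, q1, q2⟩ := hgb y hy
      have hK12 : 0 ≤ K1 * K2 := mul_nonneg hK1 (by linarith)
      have hKle : K1 ≤ K1 * K2 := le_mul_of_one_le_right hK1 hK2
      have hQ1 : 0 < 1 / Q := by positivity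
      have hQ2 : 0 < 1 / Q ^ 2 := by positivity
      refine ⟨?_, ?_, ?_⟩
      · rw [hF]
        simp only
        rw [abs_div, abs_of_pos hK, div_le_one hK, abs_mul]
        have h1 : |a y| * |g y| ≤ K1 * 1 := mul_le_mul p0 q0 (abs_nonneg _) hK1
        linarith
      · rw [hF1]
        simp only
        rw [abs_div, abs_of_pos hK, div_le_iff₀ hK]
        have h1 : |a1 y * g y| ≤ K1 / Q * 1 := by
          rw [abs_mul]
          exact mul_le_mul p1 q0 (abs_nonneg _) (by positivity)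
        have h2 : |a y * g1 y| ≤ K1 * (K2 / Q) := by
          rw [abs_mul]
          exact mul_le_mul p0 q1 (abs_nonneg _) hK1
        have h3 := abs_add_le (a1 y * g y) (a y * g1 y)
        have h4 : K1 / Q * 1 + K1 * (K2 / Q) = (1 / Q) * (K1 + K1 * K2) := by ring
        have h5 : (1 / Q) * (K1 + K1 * K2) ≤ 1 / Q * K :=
          mul_le_mul_of_nonneg_left (by linarith) hQ1.le
        linarith
      · rw [hF2]
        simp only
        rw [abs_div, abs_of_pos hK, div_le_iff₀ hK]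
        have h1 : |a2 y * g y| ≤ K1 / Q ^ 2 * 1 := by
          rw [abs_mul]
          exact mul_le_mul p2 q0 (abs_nonneg _) (by positivity)
        have h2 : |a1 y * g1 y| ≤ K1 / Q * (K2 / Q) := by
          rw [abs_mul]
          exact mul_le_mul p1 q1 (abs_nonneg _) (by positivity)
        have h3 : |a y * g2 y| ≤ K1 * (K2 / Q ^ 2) := by
          rw [abs_mul]
          exact mul_le_mul p0 q2 (abs_nonneg _) hK1
        have h4 := abs_add_le (a2 y * g y + a1 y * g1 y) (a1 y * g1 y + a y * g2 y)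
        have h5 := abs_add_le (a2 y * g y) (a1 y * g1 y)
        have h6 := abs_add_le (a1 y * g1 y) (a y * g2 y)
        have h7 : K1 / Q ^ 2 * 1 + K1 / Q * (K2 / Q) + (K1 / Q * (K2 / Q) + K1 * (K2 / Q ^ 2)) =
            (1 / Q ^ 2) * (K1 + 3 * (K1 * K2)) := by
          field_simp
          ring
        have h8 : (1 / Q ^ 2) * (K1 + 3 * (K1 * K2)) ≤ 1 / Q ^ 2 * K :=
          mul_le_mul_of_nonneg_left (by linarith) hQ2.le
        linarith
    · have e3 : F y = 0 := by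
        rw [hF]
        simp only
        rw [hz y hy]
        simp
      have e4 : F1 y = 0 := by
        rw [hF1]
        simp only
        rw [z1 y hy, hz y hy]
        simp
      have e5 : F2 y = 0 := by
        rw [hF2]
        simp only
        rw [z2 y hy, z1 y hy, hz y hy]
        simp
      rw [e3, e4, e5, abs_zero]
      exact ⟨by norm_num, by positivity, by positivity⟩
  refine ⟨?_, ?_, ?_⟩
  · have h1 : ContDiff ℝ 1 (deriv F) := by
      rw [e1, contDiff_one_iff_deriv, e2]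
      exact ⟨fun y => (d2 y).differentiableAt, c2⟩
    have h2 : ContDiff ℝ (1 + 1) F := by
      rw [contDiff_succ_iff_deriv]
      exact ⟨fun y => (d1 y).differentiableAt, by simp, h1⟩
    exact h2
  · intro y hy
    rw [hF]
    simp only
    rw [hz y hy]
    simp
  · intro y
    rw [e1, e2]
    exact hbd y

/-! ### the Gauss weight -/

theorem AMP_el (y : ℝ) (hy : 0 < y) : HasDerivAt el (-(1 / (y * (y + 1)))) y := by
  have h1 : HasDerivAt (fun y : ℝ => 1 + 1 / y) (-(1 / y ^ 2)) y := by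
    have h2 := (hasDerivAt_inv hy.ne').const_add (1 : ℝ)
    have e1 : (fun y : ℝ => 1 + 1 / y) = fun y => 1 + y⁻¹ := by
      funext x
      rw [one_div]
    rw [e1]
    have e2 : -(1 / y ^ 2) = -(y ^ 2)⁻¹ := by rw [one_div]
    rw [e2]
    exact h2
  have hpos : (1 + 1 / y) ≠ 0 := by positivity
  have h2 := h1.log hpos
  have e : -(1 / y ^ 2) / (1 + 1 / y) = -(1 / (y * (y + 1))) := by
    field_simp
  rw [e] at h2
  exact h2

theorem AMP_e1 (y : ℝ) (hy : 0 < y) :
    HasDerivAt (fun y : ℝ => -(1 / (y * (y + 1)))) ((2 * y + 1) / (y * (y + 1)) ^ 2) y := by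
  have h1 : HasDerivAt (fun y : ℝ => y * (y + 1)) (1 * (y + 1) + y * 1) y :=
    (hasDerivAt_id y).mul ((hasDerivAt_id y).add_const 1)
  have hne : y * (y + 1) ≠ 0 := by positivity
  have h2 := (h1.inv hne).neg
  have e1 : (fun y : ℝ => -(1 / (y * (y + 1)))) = fun y => -(y * (y + 1))⁻¹ := by
    funext x
    rw [one_div]
  have e2 : (2 * y + 1) / (y * (y + 1)) ^ 2 = -(-(1 * (y + 1) + y * 1) / (y * (y + 1)) ^ 2) := by
    ring
  rw [e1, e2]
  exact h2

/-- the first derivative of the Gauss weight -/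
noncomputable def AMP_g1 (G y : ℝ) : ℝ := gz G y * (G ^ 2 * el y * (1 / (y * (y + 1))) / 2)

/-- the second derivative of the Gauss weight -/
noncomputable def AMP_g2 (G y : ℝ) : ℝ :=
  AMP_g1 G y * (G ^ 2 * el y * (1 / (y * (y + 1))) / 2) +
    gz G y * (-(G ^ 2 * ((1 / (y * (y + 1))) ^ 2 + el y * ((2 * y + 1) / (y * (y + 1)) ^ 2)) / 2))

theorem AMP_gz (G y : ℝ) (hy : 0 < y) : HasDerivAt (gz G) (AMP_g1 G y) y := by
  have h1 := (((AMP_el y hy).const_mul G).pow 2).neg.div_const 4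
  have h2 := h1.exp
  have e : Real.exp ((-(fun y => G * el y) ^ 2) y / 4) * (-((2 : ℕ) * (G * el y) ^ (2 - 1) * (G * -(1 / (y * (y + 1))))) / 4) =
      AMP_g1 G y := by
    unfold AMP_g1 gz
    have e1 : (-(fun y => G * el y) ^ 2) y = -(G * el y) ^ 2 := rfl
    rw [e1]
    push_cast
    ring
  rw [← e]
  exact h2

theorem AMP_gz1 (G y : ℝ) (hy : 0 < y) : HasDerivAt (AMP_g1 G) (AMP_g2 G y) y := by
  have h1 := (AMP_gz G y hy).mul ((((AMP_el y hy).const_mul (G ^ 2)).mul (AMP_e1 y hy).neg).div_const 2)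
  have e1 : (AMP_g1 G) = fun y => gz G y * (G ^ 2 * el y * (- -(1 / (y * (y + 1)))) / 2) := by
    funext x
    unfold AMP_g1
    rw [neg_neg]
  rw [e1]
  refine h1.congr_deriv ?_
  simp only [Pi.mul_apply, Pi.neg_apply]
  unfold AMP_g2
  ring

theorem AMP_gz2 (G y : ℝ) (hy : 0 < y) : ContinuousAt (AMP_g2 G) y := by
  have c1 : ContinuousAt (AMP_g1 G) y := (AMP_gz1 G y hy).continuousAt
  have c2 : ContinuousAt el y := (AMP_el y hy).continuousAt
  have c3 : ContinuousAt (gz G) y := (AMP_gz G y hy).continuousAt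
  have hne : y * (y + 1) ≠ 0 := by positivity
  have c4 : ContinuousAt (fun y : ℝ => 1 / (y * (y + 1))) y := by
    refine continuousAt_const.div ?_ hne
    fun_prop
  have c5 : ContinuousAt (fun y : ℝ => (2 * y + 1) / (y * (y + 1)) ^ 2) y := by
    refine ContinuousAt.div ?_ ?_ (pow_ne_zero 2 hne)
    · fun_prop
    · fun_prop
  unfold AMP_g2
  exact (c1.mul (((continuousAt_const.mul c2).mul c4).div_const 2)).add
    (c3.mul ((continuousAt_const.mul ((c4.pow 2).add (c2.mul c5))).div_const 2).neg)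

theorem AMP_gb (G Q : ℝ) (hQ : 1 ≤ Q) : ∀ y ∈ Set.Icc Q (4 * Q),
    |gz G y| ≤ 1 ∧ |AMP_g1 G y| ≤ 152 / Q ∧ |AMP_g2 G y| ≤ 152 / Q ^ 2 := by
  intro y hy
  have hQ0 : 0 < Q := by linarith
  have hy1 : 1 ≤ y := hQ.trans hy.1
  have hy0 : 0 < y := by linarith
  have hel : el y ≤ 1 / y := by
    unfold el
    have h1 := Real.log_le_sub_one_of_pos (show 0 < 1 + 1 / y by positivity)
    linarith
  have hel2 : 1 / (2 * y) ≤ el y := by
    unfold el
    have h1 := Real.one_sub_inv_le_log_of_pos (show 0 < 1 + 1 / y by positivity)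
    have h2 : 1 - (1 + 1 / y)⁻¹ = 1 / (y + 1) := by
      field_simp
      ring
    rw [h2] at h1
    refine le_trans ?_ h1
    exact one_div_le_one_div_of_le (by positivity) (by linarith)
  have hel0 : 0 ≤ el y := le_trans (by positivity) hel2
  obtain ⟨x, hx⟩ : ∃ x : ℝ, x = (G / y) ^ 2 / 16 := ⟨_, rfl⟩
  have hx0 : 0 ≤ x := by rw [hx]; positivity
  have hgz : gz G y ≤ Real.exp (-x) := by
    unfold gz
    refine Real.exp_le_exp.2 ?_
    have h1 : (G * (1 / (2 * y))) ^ 2 ≤ (G * el y) ^ 2 := by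
      rw [mul_pow, mul_pow]
      exact mul_le_mul_of_nonneg_left (pow_le_pow_left₀ (by positivity) hel2 2) (sq_nonneg G)
    have h2 : (G * (1 / (2 * y))) ^ 2 = 4 * x := by
      rw [hx]
      field_simp
      ring
    rw [h2] at h1
    linarith
  have hgz0 : 0 < gz G y := Real.exp_pos _
  have hexp1 : x * Real.exp (-x) ≤ 1 := by
    have h1 := Real.add_one_le_exp x
    have h2 : x * Real.exp (-x) ≤ Real.exp x * Real.exp (-x) :=
      mul_le_mul_of_nonneg_right (by linarith) (Real.exp_pos _).le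
    rw [← Real.exp_add, add_neg_cancel, Real.exp_zero] at h2
    exact h2
  have hexp2 : x ^ 2 * Real.exp (-x) ≤ 2 := by
    have h1 := Real.quadratic_le_exp_of_nonneg hx0
    have h2 : x ^ 2 * Real.exp (-x) ≤ (2 * Real.exp x) * Real.exp (-x) :=
      mul_le_mul_of_nonneg_right (by linarith) (Real.exp_pos _).le
    rw [mul_assoc, ← Real.exp_add, add_neg_cancel, Real.exp_zero, mul_one] at h2
    exact h2
  have hxg : x * gz G y ≤ 1 := (mul_le_mul_of_nonneg_left hgz hx0).trans hexp1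
  have hxg2 : x ^ 2 * gz G y ≤ 2 := (mul_le_mul_of_nonneg_left hgz (sq_nonneg x)).trans hexp2
  have hi1 : 1 / (y * (y + 1)) ≤ 1 / y ^ 2 := one_div_le_one_div_of_le (by positivity) (by nlinarith)
  have hi2 : (2 * y + 1) / (y * (y + 1)) ^ 2 ≤ 2 / y ^ 3 := by
    rw [div_le_div_iff₀ (by positivity) (by positivity)]
    have : (y * (y + 1)) ^ 2 = y ^ 2 * (y + 1) ^ 2 := by ring
    rw [this]
    nlinarith [pow_pos hy0 2, pow_pos hy0 3, pow_pos hy0 4]
  have hG : G ^ 2 = 16 * x * y ^ 2 := by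
    rw [hx]
    field_simp
  -- the logarithmic derivative
  have hL0 : 0 ≤ G ^ 2 * el y * (1 / (y * (y + 1))) / 2 := by positivity
  have hL : G ^ 2 * el y * (1 / (y * (y + 1))) / 2 ≤ 8 * x / y := by
    have h1 : el y * (1 / (y * (y + 1))) ≤ (1 / y) * (1 / y ^ 2) :=
      mul_le_mul hel hi1 (by positivity) (by positivity)
    have h2 : G ^ 2 * (el y * (1 / (y * (y + 1)))) ≤ G ^ 2 * ((1 / y) * (1 / y ^ 2)) :=
      mul_le_mul_of_nonneg_left h1 (sq_nonneg G)
    have h3 : G ^ 2 * ((1 / y) * (1 / y ^ 2)) = 16 * x / y := by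
      rw [hG]
      field_simp
    rw [h3] at h2
    have h4 : G ^ 2 * el y * (1 / (y * (y + 1))) / 2 = G ^ 2 * (el y * (1 / (y * (y + 1)))) / 2 := by ring
    rw [h4]
    have h5 : 8 * x / y = (16 * x / y) / 2 := by ring
    rw [h5]
    linarith
  have hL2 : G ^ 2 * ((1 / (y * (y + 1))) ^ 2 + el y * ((2 * y + 1) / (y * (y + 1)) ^ 2)) / 2 ≤ 24 * x / y ^ 2 := by
    have h1 : (1 / (y * (y + 1))) ^ 2 ≤ (1 / y ^ 2) ^ 2 := pow_le_pow_left₀ (by positivity) hi1 2
    have h2 : el y * ((2 * y + 1) / (y * (y + 1)) ^ 2) ≤ (1 / y) * (2 / y ^ 3) :=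
      mul_le_mul hel hi2 (by positivity) (by positivity)
    have h3 : G ^ 2 * ((1 / (y * (y + 1))) ^ 2 + el y * ((2 * y + 1) / (y * (y + 1)) ^ 2)) ≤
        G ^ 2 * ((1 / y ^ 2) ^ 2 + (1 / y) * (2 / y ^ 3)) :=
      mul_le_mul_of_nonneg_left (by linarith) (sq_nonneg G)
    have h4 : G ^ 2 * ((1 / y ^ 2) ^ 2 + (1 / y) * (2 / y ^ 3)) = 48 * x / y ^ 2 := by
      rw [hG]
      field_simp
      ring
    rw [h4] at h3
    have h5 : 24 * x / y ^ 2 = (48 * x / y ^ 2) / 2 := by ring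
    rw [h5]
    linarith
  have hL20 : 0 ≤ G ^ 2 * ((1 / (y * (y + 1))) ^ 2 + el y * ((2 * y + 1) / (y * (y + 1)) ^ 2)) / 2 := by positivity
  have hg10 : 0 ≤ AMP_g1 G y := mul_nonneg hgz0.le hL0
  have hyQ : 1 / y ≤ 1 / Q := one_div_le_one_div_of_le hQ0 hy.1
  have hyQ2 : 1 / y ^ 2 ≤ 1 / Q ^ 2 := one_div_le_one_div_of_le (by positivity) (pow_le_pow_left₀ hQ0.le hy.1 2)
  refine ⟨?_, ?_, ?_⟩
  · rw [abs_of_pos hgz0]
    exact hgz.trans (Real.exp_le_one_iff.2 (by linarith))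
  · rw [abs_of_nonneg hg10]
    unfold AMP_g1
    have h1 : gz G y * (G ^ 2 * el y * (1 / (y * (y + 1))) / 2) ≤ gz G y * (8 * x / y) :=
      mul_le_mul_of_nonneg_left hL hgz0.le
    have h2 : gz G y * (8 * x / y) = (x * gz G y) * (8 * (1 / y)) := by ring
    have h3 : (x * gz G y) * (8 * (1 / y)) ≤ 1 * (8 * (1 / y)) :=
      mul_le_mul_of_nonneg_right hxg (by positivity)
    have h4 : (152 : ℝ) / Q = 152 * (1 / Q) := by ring
    rw [h4]
    have h5 : 0 < 1 / Q := by positivity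
    linarith
  · have hA : |AMP_g1 G y * (G ^ 2 * el y * (1 / (y * (y + 1))) / 2)| ≤ 128 * (1 / y ^ 2) := by
      rw [abs_of_nonneg (mul_nonneg hg10 hL0)]
      unfold AMP_g1
      have h1 : gz G y * (G ^ 2 * el y * (1 / (y * (y + 1))) / 2) * (G ^ 2 * el y * (1 / (y * (y + 1))) / 2) ≤
          gz G y * (8 * x / y) * (8 * x / y) := by
        refine mul_le_mul (mul_le_mul_of_nonneg_left hL hgz0.le) hL hL0 (by positivity)
      have h2 : gz G y * (8 * x / y) * (8 * x / y) = (x ^ 2 * gz G y) * (64 * (1 / y ^ 2)) := by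
        field_simp
        ring
      have h3 : (x ^ 2 * gz G y) * (64 * (1 / y ^ 2)) ≤ 2 * (64 * (1 / y ^ 2)) :=
        mul_le_mul_of_nonneg_right hxg2 (by positivity)
      linarith
    have hB : |gz G y * (-(G ^ 2 * ((1 / (y * (y + 1))) ^ 2 + el y * ((2 * y + 1) / (y * (y + 1)) ^ 2)) / 2))| ≤
        24 * (1 / y ^ 2) := by
      rw [mul_neg, abs_neg, abs_of_nonneg (mul_nonneg hgz0.le hL20)]
      have h1 : gz G y * (G ^ 2 * ((1 / (y * (y + 1))) ^ 2 + el y * ((2 * y + 1) / (y * (y + 1)) ^ 2)) / 2) ≤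
          gz G y * (24 * x / y ^ 2) := mul_le_mul_of_nonneg_left hL2 hgz0.le
      have h2 : gz G y * (24 * x / y ^ 2) = (x * gz G y) * (24 * (1 / y ^ 2)) := by ring
      have h3 : (x * gz G y) * (24 * (1 / y ^ 2)) ≤ 1 * (24 * (1 / y ^ 2)) :=
        mul_le_mul_of_nonneg_right hxg (by positivity)
      linarith
    unfold AMP_g2
    refine (abs_add_le _ _).trans ?_
    have h4 : (152 : ℝ) / Q ^ 2 = 152 * (1 / Q ^ 2) := by ring
    rw [h4]
    linarith

/-! ### the amplitudes without the Gauss weight -/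

theorem AMP_pq (d : ℝ) (p p1 p2 q q1 q2 : ℝ → ℝ) (hd : 0 ≤ d) (hp : ∀ x, HasDerivAt p (p1 x) x)
    (hp1 : ∀ x, HasDerivAt p1 (p2 x) x) (hpc : Continuous p2) (hq : ∀ x, HasDerivAt q (q1 x) x)
    (hq1 : ∀ x, HasDerivAt q1 (q2 x) x) (hqc : Continuous q2)
    (bp : ∀ x, |p x| ≤ 1 ∧ |p1 x| ≤ 1 ∧ |p2 x| ≤ 1) (bq : ∀ x, |q x| ≤ 1 ∧ |q1 x| ≤ 1 ∧ |q2 x| ≤ 1) :
    ∃ u1 u2 : ℝ → ℝ, (∀ y, HasDerivAt (fun y => p (d * y) * q (d * (y + 1))) (u1 y) y) ∧
      (∀ y, HasDerivAt u1 (u2 y) y) ∧ Continuous u2 ∧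
      ∀ y, |p (d * y) * q (d * (y + 1))| ≤ 1 ∧ |u1 y| ≤ 2 * d ∧ |u2 y| ≤ 4 * d ^ 2 := by
  have l1 : ∀ y : ℝ, HasDerivAt (fun y : ℝ => d * y) d y := fun y => by
    have h := (hasDerivAt_id y).const_mul d
    rwa [mul_one] at h
  have l2 : ∀ y : ℝ, HasDerivAt (fun y : ℝ => d * (y + 1)) d y := fun y => by
    have h := ((hasDerivAt_id y).add_const 1).const_mul d
    rwa [mul_one] at h
  have hP : ∀ y, HasDerivAt (fun y => p (d * y)) (p1 (d * y) * d) y := fun y => (hp (d * y)).comp y (l1 y)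
  have hP1 : ∀ y, HasDerivAt (fun y => p1 (d * y)) (p2 (d * y) * d) y := fun y => (hp1 (d * y)).comp y (l1 y)
  have hQ : ∀ y, HasDerivAt (fun y => q (d * (y + 1))) (q1 (d * (y + 1)) * d) y :=
    fun y => (hq (d * (y + 1))).comp y (l2 y)
  have hQ1 : ∀ y, HasDerivAt (fun y => q1 (d * (y + 1))) (q2 (d * (y + 1)) * d) y :=
    fun y => (hq1 (d * (y + 1))).comp y (l2 y)
  refine ⟨fun y => p1 (d * y) * d * q (d * (y + 1)) + p (d * y) * (q1 (d * (y + 1)) * d),
    fun y => (p2 (d * y) * d * d * q (d * (y + 1)) + p1 (d * y) * d * (q1 (d * (y + 1)) * d)) +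
      (p1 (d * y) * d * (q1 (d * (y + 1)) * d) + p (d * y) * (q2 (d * (y + 1)) * d * d)), ?_, ?_, ?_, ?_⟩
  · intro y
    exact (hP y).mul (hQ y)
  · intro y
    exact ((((hP1 y).mul_const d).mul (hQ y)).add ((hP y).mul ((hQ1 y).mul_const d)))
  · have cp : Continuous p := continuous_iff_continuousAt.2 fun x => (hp x).continuousAt
    have cp1 : Continuous p1 := continuous_iff_continuousAt.2 fun x => (hp1 x).continuousAt
    have cq : Continuous q := continuous_iff_continuousAt.2 fun x => (hq x).continuousAt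
    have cq1 : Continuous q1 := continuous_iff_continuousAt.2 fun x => (hq1 x).continuousAt
    fun_prop
  · intro y
    obtain ⟨a0, a1, a2⟩ := bp (d * y)
    obtain ⟨b0, b1, b2⟩ := bq (d * (y + 1))
    have key : ∀ s t : ℝ, |s| ≤ 1 → |t| ≤ 1 → |s * t| ≤ 1 := by
      intro s t hs ht
      rw [abs_mul]
      exact mul_le_one₀ hs (abs_nonneg _) ht
    refine ⟨key _ _ a0 b0, ?_, ?_⟩
    · have e : p1 (d * y) * d * q (d * (y + 1)) + p (d * y) * (q1 (d * (y + 1)) * d) =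
          d * (p1 (d * y) * q (d * (y + 1)) + p (d * y) * q1 (d * (y + 1))) := by ring
      simp only
      rw [e, abs_mul, abs_of_nonneg hd]
      have h1 := abs_add_le (p1 (d * y) * q (d * (y + 1))) (p (d * y) * q1 (d * (y + 1)))
      have h2 := key _ _ a1 b0
      have h3 := key _ _ a0 b1
      have h4 : |p1 (d * y) * q (d * (y + 1)) + p (d * y) * q1 (d * (y + 1))| ≤ 2 := by linarith
      nlinarith
    · have e : (p2 (d * y) * d * d * q (d * (y + 1)) + p1 (d * y) * d * (q1 (d * (y + 1)) * d)) +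
          (p1 (d * y) * d * (q1 (d * (y + 1)) * d) + p (d * y) * (q2 (d * (y + 1)) * d * d)) =
          d ^ 2 * ((p2 (d * y) * q (d * (y + 1)) + p1 (d * y) * q1 (d * (y + 1))) +
            (p1 (d * y) * q1 (d * (y + 1)) + p (d * y) * q2 (d * (y + 1)))) := by ring
      simp only
      rw [e, abs_mul, abs_of_nonneg (sq_nonneg d)]
      have h1 := abs_add_le (p2 (d * y) * q (d * (y + 1)) + p1 (d * y) * q1 (d * (y + 1)))
        (p1 (d * y) * q1 (d * (y + 1)) + p (d * y) * q2 (d * (y + 1)))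
      have h2 := abs_add_le (p2 (d * y) * q (d * (y + 1))) (p1 (d * y) * q1 (d * (y + 1)))
      have h3 := abs_add_le (p1 (d * y) * q1 (d * (y + 1))) (p (d * y) * q2 (d * (y + 1)))
      have h4 := key _ _ a2 b0
      have h5 := key _ _ a1 b1
      have h6 := key _ _ a0 b2
      have h7 : |(p2 (d * y) * q (d * (y + 1)) + p1 (d * y) * q1 (d * (y + 1))) +
            (p1 (d * y) * q1 (d * (y + 1)) + p (d * y) * q2 (d * (y + 1)))| ≤ 4 := by linarith
      nlinarith [sq_nonneg d]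

/-- the second amplitude -/
theorem AMP_sec (Q d : ℝ) (w w1 w2 w3 : ℝ → ℝ) (hQ : 1 ≤ Q) (hd0 : 0 ≤ d) (hd : d ≤ 1 / Q)
    (hw : ∀ x, HasDerivAt w (w1 x) x) (hw1 : ∀ x, HasDerivAt w1 (w2 x) x)
    (hw2 : ∀ x, HasDerivAt w2 (w3 x) x) (hw3 : Continuous w3)
    (b : ∀ x, |w x| ≤ 1 ∧ |w1 x| ≤ 1 ∧ |w2 x| ≤ 1 ∧ |w3 x| ≤ 1) :
    ∃ a1 a2 : ℝ → ℝ, (∀ y, HasDerivAt (fun y => y / (2 * Q) * (w1 (d * y) * w (d * (y + 1))) +
        (y + 1) / (2 * Q) * (w (d * y) * w1 (d * (y + 1)))) (a1 y) y) ∧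
      (∀ y, HasDerivAt a1 (a2 y) y) ∧ Continuous a2 ∧
      ∀ y ∈ Set.Icc Q (4 * Q), |y / (2 * Q) * (w1 (d * y) * w (d * (y + 1))) +
        (y + 1) / (2 * Q) * (w (d * y) * w1 (d * (y + 1)))| ≤ 22 ∧ |a1 y| ≤ 22 / Q ∧ |a2 y| ≤ 22 / Q ^ 2 := by
  have hQ0 : 0 < Q := by linarith
  have c2 : Continuous w2 := continuous_iff_continuousAt.2 fun x => (hw2 x).continuousAt
  obtain ⟨u1, u2, hu, hu1, cu, bu⟩ := AMP_pq d w1 w2 w3 w w1 w2 hd0 hw1 hw2 hw3 hw hw1 c2
    (fun x => ⟨(b x).2.1, (b x).2.2.1, (b x).2.2.2⟩) (fun x => ⟨(b x).1, (b x).2.1, (b x).2.2.1⟩)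
  obtain ⟨v1, v2, hv, hv1, cv, bv⟩ := AMP_pq d w w1 w2 w1 w2 w3 hd0 hw hw1 c2 hw1 hw2 hw3
    (fun x => ⟨(b x).1, (b x).2.1, (b x).2.2.1⟩) (fun x => ⟨(b x).2.1, (b x).2.2.1, (b x).2.2.2⟩)
  obtain ⟨u, eu⟩ : ∃ u : ℝ → ℝ, u = fun y => w1 (d * y) * w (d * (y + 1)) := ⟨_, rfl⟩
  obtain ⟨v, ev⟩ : ∃ v : ℝ → ℝ, v = fun y => w (d * y) * w1 (d * (y + 1)) := ⟨_, rfl⟩
  have eu' : ∀ y, w1 (d * y) * w (d * (y + 1)) = u y := fun y => by rw [eu]
  have ev' : ∀ y, w (d * y) * w1 (d * (y + 1)) = v y := fun y => by rw [ev]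
  simp only [eu', ev'] at hu bu hv bv ⊢
  have l1 : ∀ y : ℝ, HasDerivAt (fun y : ℝ => y / (2 * Q)) (1 / (2 * Q)) y := fun y =>
    (hasDerivAt_id y).div_const (2 * Q)
  have l2 : ∀ y : ℝ, HasDerivAt (fun y : ℝ => (y + 1) / (2 * Q)) (1 / (2 * Q)) y := fun y =>
    ((hasDerivAt_id y).add_const 1).div_const (2 * Q)
  refine ⟨fun y => (1 / (2 * Q) * u y + y / (2 * Q) * u1 y) + (1 / (2 * Q) * v y + (y + 1) / (2 * Q) * v1 y),
    fun y => (1 / (2 * Q) * u1 y + (1 / (2 * Q) * u1 y + y / (2 * Q) * u2 y)) +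
      (1 / (2 * Q) * v1 y + (1 / (2 * Q) * v1 y + (y + 1) / (2 * Q) * v2 y)), ?_, ?_, ?_, ?_⟩
  · intro y
    exact ((l1 y).mul (hu y)).add ((l2 y).mul (hv y))
  · intro y
    exact (((hu y).const_mul _).add ((l1 y).mul (hu1 y))).add (((hv y).const_mul _).add ((l2 y).mul (hv1 y)))
  · have cu0 : Continuous u1 := continuous_iff_continuousAt.2 fun x => (hu1 x).continuousAt
    have cv0 : Continuous v1 := continuous_iff_continuousAt.2 fun x => (hv1 x).continuousAt
    fun_prop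
  · intro y hy
    obtain ⟨u0b, u1b, u2b⟩ := bu y
    obtain ⟨v0b, v1b, v2b⟩ := bv y
    have hy0 : 0 ≤ y := by linarith [hy.1]
    have k1 : 0 ≤ y / (2 * Q) := by positivity
    have k2 : y / (2 * Q) ≤ 2 := by
      rw [div_le_iff₀ (by positivity)]
      linarith [hy.2]
    have k3 : 0 ≤ (y + 1) / (2 * Q) := by positivity
    have k4 : (y + 1) / (2 * Q) ≤ 5 / 2 := by
      rw [div_le_iff₀ (by positivity)]
      linarith [hy.2]
    have k5 : 0 ≤ 1 / (2 * Q) := by positivity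
    have k6 : 1 / (2 * Q) = (1 / 2) * (1 / Q) := by
      field_simp
    have hQi : 0 < 1 / Q := by positivity
    have u1c : |u1 y| ≤ 2 * (1 / Q) := u1b.trans (by linarith)
    have v1c : |v1 y| ≤ 2 * (1 / Q) := v1b.trans (by linarith)
    have dd : d ^ 2 ≤ (1 / Q) ^ 2 := pow_le_pow_left₀ hd0 hd 2
    have u2c : |u2 y| ≤ 4 * (1 / Q) ^ 2 := u2b.trans (by linarith)
    have v2c : |v2 y| ≤ 4 * (1 / Q) ^ 2 := v2b.trans (by linarith)
    have key : ∀ s t S T : ℝ, 0 ≤ s → s ≤ S → |t| ≤ T → |s * t| ≤ S * T := by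
      intro s t S T hs hS hT
      rw [abs_mul, abs_of_nonneg hs]
      exact mul_le_mul hS hT (abs_nonneg _) (hs.trans hS)
    refine ⟨?_, ?_, ?_⟩
    · have h1 := abs_add_le (y / (2 * Q) * u y) ((y + 1) / (2 * Q) * v y)
      have h2 := key _ _ 2 1 k1 k2 u0b
      have h3 := key _ _ (5 / 2) 1 k3 k4 v0b
      linarith
    · have h1 := abs_add_le (1 / (2 * Q) * u y + y / (2 * Q) * u1 y) (1 / (2 * Q) * v y + (y + 1) / (2 * Q) * v1 y)
      have h2 := abs_add_le (1 / (2 * Q) * u y) (y / (2 * Q) * u1 y)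
      have h3 := abs_add_le (1 / (2 * Q) * v y) ((y + 1) / (2 * Q) * v1 y)
      have h4 := key _ _ (1 / (2 * Q)) 1 k5 le_rfl u0b
      have h5 := key _ _ 2 _ k1 k2 u1c
      have h6 := key _ _ (1 / (2 * Q)) 1 k5 le_rfl v0b
      have h7 := key _ _ (5 / 2) _ k3 k4 v1c
      have h8 : (22 : ℝ) / Q = 22 * (1 / Q) := by ring
      simp only
      rw [h8]
      rw [k6] at h4 h6
      rw [k6] at h1 h2 h3 ⊢
      linarith
    · have h1 := abs_add_le (1 / (2 * Q) * u1 y + (1 / (2 * Q) * u1 y + y / (2 * Q) * u2 y))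
        (1 / (2 * Q) * v1 y + (1 / (2 * Q) * v1 y + (y + 1) / (2 * Q) * v2 y))
      have h2 := abs_add_le (1 / (2 * Q) * u1 y) (1 / (2 * Q) * u1 y + y / (2 * Q) * u2 y)
      have h2' := abs_add_le (1 / (2 * Q) * u1 y) (y / (2 * Q) * u2 y)
      have h3 := abs_add_le (1 / (2 * Q) * v1 y) (1 / (2 * Q) * v1 y + (y + 1) / (2 * Q) * v2 y)
      have h3' := abs_add_le (1 / (2 * Q) * v1 y) ((y + 1) / (2 * Q) * v2 y)
      have h4 := key _ _ (1 / (2 * Q)) _ k5 le_rfl u1c
      have h5 := key _ _ 2 _ k1 k2 u2c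
      have h6 := key _ _ (1 / (2 * Q)) _ k5 le_rfl v1c
      have h7 := key _ _ (5 / 2) _ k3 k4 v2c
      have h8 : (22 : ℝ) / Q ^ 2 = 22 * (1 / Q) ^ 2 := by
        field_simp
      have h9 : 1 / (2 * Q) * (2 * (1 / Q)) = (1 / Q) ^ 2 := by
        field_simp
      rw [h9] at h4 h6
      simp only
      rw [h8]
      linarith

/-- **AMP**. The amplitudes. -/
theorem AMP : AMP_stmt := by
  refine ⟨13376, by norm_num, ?_⟩
  intro w M H₀ η G Q hw hH hη1 hη2 hG hQM hQ
  obtain ⟨hw3, hw0, hwb⟩ := hw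
  have hQ0 : 0 < Q := by linarith
  have hH0 : 0 < H₀ := by linarith
  have hM : M = 2 * H₀ * Q := by
    rw [hQM]
    field_simp
  have hM0 : 0 < M := by rw [hM]; positivity
  -- the derivatives of `w`
  have c2 : ContDiff ℝ 2 (deriv w) := by
    have h1 : ContDiff ℝ (2 + 1) w := hw3
    exact (contDiff_succ_iff_deriv.1 h1).2.2
  have c1 : ContDiff ℝ 1 (deriv (deriv w)) := by
    have h1 : ContDiff ℝ (1 + 1) (deriv w) := c2
    exact (contDiff_succ_iff_deriv.1 h1).2.2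
  have d0 : ∀ x, HasDerivAt w (deriv w x) x := fun x => (hw3.differentiable (by norm_num) x).hasDerivAt
  have d1 : ∀ x, HasDerivAt (deriv w) (deriv (deriv w) x) x := fun x =>
    (c2.differentiable (by norm_num) x).hasDerivAt
  have d2 : ∀ x, HasDerivAt (deriv (deriv w)) (deriv (deriv (deriv w)) x) x := fun x =>
    (c1.differentiable (by norm_num) x).hasDerivAt
  have c3 : Continuous (deriv (deriv (deriv w))) := (contDiff_one_iff_deriv.1 c1).2
  have cc2 : Continuous (deriv (deriv w)) := c1.continuous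
  have hb : ∀ x, |w x| ≤ 1 ∧ |deriv w x| ≤ 1 ∧ |deriv (deriv w) x| ≤ 1 ∧ |deriv (deriv (deriv w)) x| ≤ 1 := by
    intro x
    have h := hwb x
    rw [iteratedDeriv_one] at h
    have e2 : iteratedDeriv 2 w = deriv (deriv w) := by
      rw [iteratedDeriv_succ, iteratedDeriv_one]
    have e3 : iteratedDeriv 3 w = deriv (deriv (deriv w)) := by
      rw [iteratedDeriv_succ, e2]
    rw [e2, e3] at h
    exact h
  have z1 := AMP_zero isClosed_Icc d0 hw0
  have hdv : ∀ h y : ℝ, h * y / M = h / M * y := fun h y => by ring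
  constructor
  · -- the first amplitude
    have hdM : 2 * H₀ / M = 1 / Q := by
      rw [hM]
      field_simp
    have hQi : 0 < 1 / Q := by positivity
    obtain ⟨u1, u2, hu, hu1, cu, bu⟩ := AMP_pq (1 / Q) w (deriv w) (deriv (deriv w)) w (deriv w) (deriv (deriv w))
      hQi.le d0 d1 cc2 d0 d1 cc2 (fun x => ⟨(hb x).1, (hb x).2.1, (hb x).2.2.1⟩)
      (fun x => ⟨(hb x).1, (hb x).2.1, (hb x).2.2.1⟩)
    have eW : Wz w M (2 * H₀) = fun y => w (1 / Q * y) * w (1 / Q * (y + 1)) := by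
      funext y
      unfold Wz
      rw [hdv (2 * H₀) y, hdv (2 * H₀) (y + 1), hdM]
    have hA := AMP_mul Q 13376 22 152 (Wz w M (2 * H₀)) u1 u2 (gz G) (AMP_g1 G) (AMP_g2 G) hQ (by norm_num)
      (by norm_num) (by norm_num) (by norm_num) (by rw [eW]; exact hu) hu1 cu ?_ ?_ (AMP_gz G) (AMP_gz1 G)
      (AMP_gz2 G) (AMP_gb G Q hQ)
    · exact hA
    · intro y hy
      rw [eW]
      simp only
      rw [hw0 (1 / Q * y), zero_mul]
      intro h
      apply hy
      have h1 : 1 / Q * y = y / Q := by ring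
      rw [h1] at h
      have h2 := (le_div_iff₀ hQ0).1 h.1
      have h3 := (div_le_iff₀ hQ0).1 h.2
      exact ⟨by linarith, by linarith⟩
    · intro y _
      rw [eW]
      obtain ⟨b0, b1, b2⟩ := bu y
      refine ⟨b0.trans (by norm_num), b1.trans ?_, b2.trans ?_⟩
      · have h8 : (22 : ℝ) / Q = 22 * (1 / Q) := by ring
        rw [h8]
        linarith
      · have h8 : (22 : ℝ) / Q ^ 2 = 22 * (1 / Q) ^ 2 := by
          field_simp
        rw [h8]
        nlinarith [sq_nonneg (1 / Q)]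
  · -- the second amplitude
    have hη0 : 0 < η := by linarith
    have hd0 : 0 < η / M := by positivity
    have hd1 : η / M ≤ 1 / Q := by
      rw [hM, div_le_div_iff₀ (by positivity) hQ0]
      nlinarith
    have hd2 : 1 / (2 * Q) ≤ η / M := by
      rw [hM, div_le_div_iff₀ (by positivity) (by positivity)]
      nlinarith
    obtain ⟨a1, a2, ha, ha1, ca, ba⟩ := AMP_sec Q (η / M) w (deriv w) (deriv (deriv w)) (deriv (deriv (deriv w)))
      hQ hd0.le hd1 d0 d1 d2 c3 hb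
    have eA : (fun y => H₀ * deriv (fun h => Wz w M h y) η) = fun y => y / (2 * Q) *
        (deriv w (η / M * y) * w (η / M * (y + 1))) + (y + 1) / (2 * Q) *
        (w (η / M * y) * deriv w (η / M * (y + 1))) := by
      funext y
      have l : ∀ z : ℝ, HasDerivAt (fun h : ℝ => h * z / M) (z / M) η := fun z => by
        have h := ((hasDerivAt_id η).mul_const z).div_const M
        rwa [one_mul] at h
      have k1 : HasDerivAt (fun h : ℝ => w (h * y / M)) (deriv w (η * y / M) * (y / M)) η :=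
        (d0 (η * y / M)).comp η (l y)
      have k2 : HasDerivAt (fun h : ℝ => w (h * (y + 1) / M)) (deriv w (η * (y + 1) / M) * ((y + 1) / M)) η :=
        (d0 (η * (y + 1) / M)).comp η (l (y + 1))
      have k3 : HasDerivAt (fun h : ℝ => Wz w M h y) (deriv w (η * y / M) * (y / M) * w (η * (y + 1) / M) +
          w (η * y / M) * (deriv w (η * (y + 1) / M) * ((y + 1) / M))) η := k1.mul k2
      rw [k3.deriv, hdv, hdv]
      have hHM : H₀ / M = 1 / (2 * Q) := by
        rw [hM]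
        field_simp
      have e1 : H₀ * (deriv w (η / M * y) * (y / M) * w (η / M * (y + 1)) +
          w (η / M * y) * (deriv w (η / M * (y + 1)) * ((y + 1) / M))) =
          H₀ / M * (y * (deriv w (η / M * y) * w (η / M * (y + 1))) +
            (y + 1) * (w (η / M * y) * deriv w (η / M * (y + 1)))) := by ring
      rw [e1, hHM]
      ring
    have eA' : ∀ y, H₀ * deriv (fun h => Wz w M h y) η = y / (2 * Q) *
        (deriv w (η / M * y) * w (η / M * (y + 1))) + (y + 1) / (2 * Q) *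
        (w (η / M * y) * deriv w (η / M * (y + 1))) := fun y => congrFun eA y
    have hA := AMP_mul Q 13376 22 152 (fun y => H₀ * deriv (fun h => Wz w M h y) η) a1 a2 (gz G) (AMP_g1 G)
      (AMP_g2 G) hQ (by norm_num) (by norm_num) (by norm_num) (by norm_num) (by rw [eA]; exact ha) ha1 ca ?_ ?_
      (AMP_gz G) (AMP_gz1 G) (AMP_gz2 G) (AMP_gb G Q hQ)
    · exact hA
    · intro y hy
      rw [eA']
      have hn : η / M * y ∉ Set.Icc (1 : ℝ) 2 := by
        intro h
        apply hy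
        have hy0 : 0 < y := by
          by_contra hc
          have : η / M * y ≤ 0 := mul_nonpos_of_nonneg_of_nonpos hd0.le (not_lt.1 hc)
          linarith [h.1]
        have h1 : η / M * y ≤ 1 / Q * y := mul_le_mul_of_nonneg_right hd1 hy0.le
        have h2 : 1 / (2 * Q) * y ≤ η / M * y := mul_le_mul_of_nonneg_right hd2 hy0.le
        have h3 : 1 ≤ y / Q := by
          have : 1 / Q * y = y / Q := by ring
          linarith [h.1]
        have h4 : y / (2 * Q) ≤ 2 := by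
          have : 1 / (2 * Q) * y = y / (2 * Q) := by ring
          linarith [h.2]
        have h5 := (le_div_iff₀ hQ0).1 h3
        have h6 := (div_le_iff₀ (by positivity : (0 : ℝ) < 2 * Q)).1 h4
        exact ⟨by linarith, by linarith⟩
      rw [hw0 _ hn, z1 _ hn]
      ring
    · intro y hy
      rw [eA']
      exact ba y hy

end Pool.Agent.BEY
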